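import Pool.Agent.N269.LG.Seq2

/-!
# Growth of the best approximations for every norm on the plane

For every norm on `ℝ²` and every admissible `θ` the denominators `M_ν` of the best approximations
satisfy `M_{ν+6} ≥ 2 M_{ν+1} + M_ν` for all large `ν`; hence `liminf M_ν^{1/ν}` is at least the
root `1.2298...` of `t^6 = 2 t + 1`.

The proof uses the classes modulo 2 of seven consecutive best approximations and the following
property of normed planes (`Pool.Agent.N269.LG.three`): there are no three vectors of norm at least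
`ρ` whose pairwise sums have norm less than `ρ` (one of the sums may have norm `ρ`).
-/

set_option autoImplicit false

namespace Pool.Agent.Results.MP_f10524_nt.EveryNorm

open Filter

/-- The distance of `k θ` to `ℤ²` in the norm `N`. -/
noncomputable def dist (N : (Fin 2 → ℝ) → ℝ) (θ : Fin 2 → ℝ) (k : ℕ) : ℝ :=
  ⨅ a : Fin 2 → ℤ, N (fun i => (k : ℝ) * θ i - ((a i : ℤ) : ℝ))

/-- The denominators of the best approximations, in increasing order (as in `S18919`). -/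
noncomputable def M (N : (Fin 2 → ℝ) → ℝ) (θ : Fin 2 → ℝ) (ν : ℕ) : ℕ :=
  Nat.nth (fun k : ℕ => 0 < k ∧ ∀ j : ℕ, 0 < j → j < k → dist N θ k < dist N θ j) ν

/-- Let `N` be a norm on the plane and let `q θ` be no integer point for all nonzero integers `q`.
1. `M_{ν+6} ≥ 2 M_{ν+1} + M_ν` for all large `ν`.
2. `M_ν > c^ν` for all large `ν`, for every positive `c` with `c^6 < 2 c + 1`
   (that is, for every `c` less than the root `1.2298...` of `t^6 = 2 t + 1`).
3. In particular `M_ν > 1.2298^ν` for all large `ν`. -/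
theorem result (N : (Fin 2 → ℝ) → ℝ) (h0 : ∀ x, N x = 0 → x = 0)
    (h1 : ∀ x y, N (x + y) ≤ N x + N y)
    (h2 : ∀ (r : ℝ) (x : Fin 2 → ℝ), N (r • x) = |r| * N x)
    (θ : Fin 2 → ℝ)
    (hθ : ∀ q : ℤ, q ≠ 0 → ¬ ∀ i : Fin 2, ∃ a : ℤ, (q : ℝ) * θ i = (a : ℝ)) :
    (∀ᶠ ν in atTop, 2 * (M N θ (ν + 1) : ℝ) + (M N θ ν : ℝ) ≤ (M N θ (ν + 6) : ℝ)) ∧
    (∀ c : ℝ, 0 < c → c ^ 6 < 2 * c + 1 → ∀ᶠ ν in atTop, c ^ ν < (M N θ ν : ℝ)) ∧
    (∀ᶠ ν in atTop, (1.2298 : ℝ) ^ ν < (M N θ ν : ℝ)) := by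
  have hN : Pool.Agent.N269.LG.IsNm N := ⟨h0, h1, h2⟩
  have hinf := Pool.Agent.N269.LG.rec_inf hN hθ
  have hM : ∀ ν, M N θ ν = Nat.nth (Pool.Agent.N269.LG.Rec N θ) ν := fun ν => rfl
  have ha : ∀ᶠ ν in atTop, 2 * (M N θ (ν + 1) : ℝ) + (M N θ ν : ℝ) ≤
      (M N θ (ν + 6) : ℝ) := by
    filter_upwards [Pool.Agent.N269.LG.eventually_rec2 hN hθ] with ν hν
    rw [hM, hM, hM]
    exact_mod_cast hν
  have hpos : ∀ n, 0 < (M N θ n : ℝ) := by
    intro n
    rw [hM]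
    exact_mod_cast (Nat.nth_mem_of_infinite hinf n).1
  have hmono : Monotone (fun n => (M N θ n : ℝ)) := by
    intro a b hab
    show (M N θ a : ℝ) ≤ (M N θ b : ℝ)
    rw [hM, hM]
    exact_mod_cast (Nat.nth_strictMono hinf).monotone hab
  have hb : ∀ c : ℝ, 0 < c → c ^ 6 < 2 * c + 1 → ∀ᶠ ν in atTop, c ^ ν < (M N θ ν : ℝ) :=
    fun c hc hc2 => Pool.Agent.N269.LG.growth2 hpos hmono ha hc hc2
  exact ⟨ha, hb, hb 1.2298 (by norm_num) (by norm_num)⟩

end Pool.Agent.Results.MP_f10524_nt.EveryNorm
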